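import Pool.Agent.H95.DR.Targets

/-!
# Row AFK of dfx_modules: the `L`-function as a rapidly convergent series, real quadratic fields
-/

set_option autoImplicit false

open MeasureTheory Set Filter NumberField
open scoped Real nonZeroDivisors Matrix MatrixGroups

namespace Pool.Agent.H86.DF

open Pool.Agent.H31.CN Pool.Agent.H89.FM Pool.Agent.H61.FM Pool.Agent.H89.FC Pool.Agent.H95.FC
open Pool.Agent.H89.DF Pool.Agent.H95.DR

theorem hs_congr {ι : Type} {g h : ι → ℂ} {a : ℂ} (hg : HasSum g a) (e : ∀ i, h i = g i) :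
    HasSum h a := by
  rw [funext e]
  exact hg

theorem pf_LFKr (hLF2r : T_LF2r) (hWCL : T_WCL) (hROT : Pool.Agent.H89.FC.T_ROTm) (hKMG : T_KMG)
    (hFRMr : T_FRMr) (hFLF : Pool.Agent.H95.FC.T_FLF) (hGEN : Pool.Agent.H89.FM.T_GEN)
    (_hFLS : Pool.Agent.H89.FM.T_FLS) (hLC1r : T_LC1r) (hLS1 : T_LS1) (hDDX : T_DDX)
    (hPBG : T_PBG) (hPBT : T_PBT) : T_LFKr := by
  classical
  intro K _ _ σ σ' D f κ ν ψ F hRQ hψ hF m τ₀ s hτ hτr hs hs1
  have hf : 1 ≤ f := hψ.pos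
  obtain ⟨R⟩ := hDDX K D f σ σ' hRQ hf
  have h2 := hLF2r K D f σ σ' κ ν ψ F hRQ hψ hF R m 1 squarefree_one s hs hs1
  rw [(hLC1r K σ σ' f κ ν ψ hψ).1, one_mul] at h2
  obtain ⟨hk1, C, a, hC, ha, hk2⟩ := hKMG m.natAbs τ₀ s hτ hτr
  have hnm : nm (1 : (Ideal (𝓞 K))⁰) = 1 := by
    unfold nm
    simp
  -- one class
  have h3 : ∀ c, HasSum (fun J : (Ideal (𝓞 K))⁰ =>
      if ClassGroup.mk0 J = c⁻¹ then
        ψ J * Krr κ m ν τ₀ s ((nm J : ℝ) / (f * Real.sqrt D)) else 0)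
      ((R.n : ℂ)⁻¹ * ∑ V ∈ R.T c, R.ρ κ ν ψ c V * ∫ τ in (0 : ℝ)..R.P,
        Fr σ σ' κ m s f (Lw f V) (R.α c) (R.β c) τ *
          Complex.exp (-(((ν * τ : ℝ) : ℂ) * Complex.I))) := by
    intro c
    have hI0 : (R.I c : Ideal (𝓞 K)) ≠ ⊥ := nonZeroDivisors.coe_ne_zero (R.I c)
    have hPB := (hPBT K σ σ').1 (R.I c : Ideal (𝓞 K)) (R.α c) (R.β c) (R.Q c) hI0 (R.ob c)
    have hpbg := (hPBG K σ σ' _ _ _ _ hPB).2.2
    have h4 := hWCL K D f σ σ' κ ν ψ hRQ hψ R c 1 m f (fun r : ℝ => Kmc m.natAbs τ₀ s (r : ℂ)) C a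
      (fun V τ => Fr σ σ' κ m s f (Lw f V) (R.α c) (R.β c) τ) hf hk1 ha hk2 (by
        intro V hV τ
        have hdet := (R.lt c).one V hV
        have hgcd : Nat.Coprime (Int.gcd V.1 V.2) f := by
          have h5 : Int.gcd V.1 V.2 = 1 := by
            rw [← Int.isCoprime_iff_gcd_eq_one]
            refine ⟨(R.W c V).2, -(R.W c V).1, ?_⟩
            unfold det at hdet
            linear_combination hdet
          rw [h5]
          exact Nat.coprime_one_left f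
        have hL : Lw f V ∈ Ls f := hGEN.1 f V hf hgcd
        have r1 := hROT m f (Lw f V) (zp σ σ' τ (R.α c) (R.β c)).re
          (zp σ σ' τ (R.α c) (R.β c)).im s τ₀ hf hL (hpbg τ).1 hτ hτr
        have r2 := hROT (-m) f (Lw f V) (zp σ σ' τ (R.α c) (R.β c)).re
          (zp σ σ' τ (R.α c) (R.β c)).im s τ₀ hf hL (hpbg τ).1 hτ hτr
        rw [Int.natAbs_neg] at r2
        have r3 := ((r1.mul_left (wp σ σ' τ (R.α c) ^ m)).add
          (r2.mul_left ((-1) ^ κ * wp σ σ' τ (R.α c) ^ (-m)))).div_const 2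
        have e : ∀ v : ℤ × ℤ, (v ∈ lt K (R.α c) (R.β c)
            (((1 : (Ideal (𝓞 K))⁰) : Ideal (𝓞 K)) * R.I c) ∧ (f : ℤ) ∣ det V v ∧ v ≠ 0) ↔
            (v ∈ Lw f V ∧ v ≠ 0) := by
          intro v
          have h6 : v ∈ lt K (R.α c) (R.β c)
              (((1 : (Ideal (𝓞 K))⁰) : Ideal (𝓞 K)) * R.I c) := by
            rw [Submonoid.coe_one, one_mul]
            exact ((R.ob c).mem _).mpr ⟨v, rfl⟩
          exact ⟨fun h => ⟨h.2.1, h.2.2⟩, fun h => ⟨h6, h.1, h.2⟩⟩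
        refine hs_congr r3 (fun v => ?_)
        by_cases hv : v ∈ Lw f V ∧ v ≠ 0
        · rw [if_pos ((e v).2 hv), if_pos hv, if_pos hv]
          ring
        · rw [if_neg (fun h => hv ((e v).1 h)), if_neg hv, if_neg hv]
          ring)
    rw [map_one, mul_one, hnm, Nat.cast_one, Submonoid.coe_one, Ideal.one_eq_top, hψ.one] at h4
    refine hs_congr h4 (fun J => ?_)
    by_cases hJ : ClassGroup.mk0 J = c⁻¹
    · rw [if_pos hJ, if_pos hJ, one_mul, mul_one]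
      rfl
    · rw [if_neg hJ, if_neg hJ]
  have h6 := hasSum_sum (s := (Finset.univ : Finset (ClassGroup (𝓞 K)))) fun c _ => h3 c
  have e1 : (fun J : (Ideal (𝓞 K))⁰ => ∑ c : ClassGroup (𝓞 K),
      (if ClassGroup.mk0 J = c⁻¹ then
        ψ J * Krr κ m ν τ₀ s ((nm J : ℝ) / (f * Real.sqrt D)) else 0)) =
      fun J : (Ideal (𝓞 K))⁰ => ψ J * Krr κ m ν τ₀ s ((nm J : ℝ) / (f * Real.sqrt D)) := by
    funext J
    rw [Finset.sum_eq_single (ClassGroup.mk0 J)⁻¹]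
    · rw [inv_inv, if_pos rfl]
    · intro c _ hc
      rw [if_neg]
      intro h
      apply hc
      rw [h, inv_inv]
    · intro h
      exact absurd (Finset.mem_univ _) h
  have hG : ∀ c, ∀ V ∈ R.T c, ∀ τ : ℝ,
      R.G κ m s 1 c V τ = Fr σ σ' κ m s f (Lw f V) (R.α c) (R.β c) τ := by
    intro c V hV τ
    have hI0 : (R.I c : Ideal (𝓞 K)) ≠ ⊥ := nonZeroDivisors.coe_ne_zero (R.I c)
    have hdet := (R.lt c).one V hV
    unfold DD.G
    rw [hLS1, Finset.sum_singleton]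
    unfold DD.v₁ DD.v₂
    rw [hFRMr K σ σ' (R.I c : Ideal (𝓞 K)) (R.α c) (R.β c) (R.Q c) hI0 (R.ob c) κ m s 1 f V
      (R.W c V) ⊤ τ le_rfl hf hdet, one_mul]
    have e : AddSubgroup.map (io f V (R.W c V)) ⊤ = Lw f V := by
      ext u
      rw [AddSubgroup.mem_map]
      constructor
      · rintro ⟨v, -, hv⟩
        exact ((hFLF f (R.Q c) V (R.W c V) hf hdet).2.2.2.2 u).2 ⟨v, hv⟩
      · intro hu
        obtain ⟨v, hv⟩ := ((hFLF f (R.Q c) V (R.W c V) hf hdet).2.2.2.2 u).1 hu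
        exact ⟨v, AddSubgroup.mem_top _, hv⟩
    rw [e]
  have e2 : (∑ c : ClassGroup (𝓞 K), ((R.n : ℂ)⁻¹ * ∑ V ∈ R.T c, R.ρ κ ν ψ c V *
      ∫ τ in (0 : ℝ)..R.P, Fr σ σ' κ m s f (Lw f V) (R.α c) (R.β c) τ *
          Complex.exp (-(((ν * τ : ℝ) : ℂ) * Complex.I)))) =
      gM m.natAbs s * crr κ m ν s * ((f : ℂ) ^ 2 * D) ^ (s / 2) * F s := by
    rw [h2]
    unfold DD.E DD.J
    rw [Finset.sum_sigma, ← Finset.mul_sum]
    refine congrArg _ (Finset.sum_congr rfl fun c _ => Finset.sum_congr rfl fun V hV => ?_)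
    simp only [hG c V hV]
  rw [e1, e2] at h6
  exact h6

end Pool.Agent.H86.DF
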