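import Pool.Agent.H95.DR.Targets
import Pool.Agent.H10.FC.AHOM

/-!
# Row AMU of dfx_modules: the bases of the lines with a given form
-/

set_option autoImplicit false

open MeasureTheory Set Filter NumberField
open scoped Real nonZeroDivisors Matrix MatrixGroups

namespace Pool.Agent.H86.DF

open Pool.Agent.H31.CN Pool.Agent.H89.FM Pool.Agent.H61.FM Pool.Agent.H89.FC Pool.Agent.H95.FC
open Pool.Agent.H89.DF Pool.Agent.H95.DR

section

variable {K : Type} [Field K] [NumberField K] {σ σ' : K →+* ℝ}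

omit [NumberField K] in
theorem PB_ne {N : ℝ} {a b : 𝓞 K} {S : QF} (h : PB σ σ' N a b S) : a ≠ 0 := by
  intro h0
  have h1 := h.ori
  rw [h0] at h1
  simp at h1

/-- two bases with the same form are proportional -/
theorem PB_pair (hPBG : T_PBG) {N N0 : ℝ} {a b a0 b0 : 𝓞 K} {S : QF} (h : PB σ σ' N a b S)
    (h0 : PB σ σ' N0 a0 b0 S) : a * b0 = a0 * b := by
  have key : ∀ {M : ℝ} {c d : 𝓞 K}, PB σ σ' M c d S → σ (d : K) * ((val S (1, 0) : ℤ) : ℝ) =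
      σ (c : K) * ((((val S (1, 1) : ℤ) : ℝ) - ((val S (1, 0) : ℤ) : ℝ) - ((val S (0, 1) : ℤ) : ℝ) -
        Real.sqrt (-(dsc S : ℝ))) / 2) := by
    intro M c d hc
    have n1 := hc.nrm (1, 0)
    have n2 := hc.nrm (0, 1)
    have n3 := hc.nrm (1, 1)
    simp only [lv, Int.cast_one, Int.cast_zero, one_mul, zero_mul, add_zero, zero_add,
      map_add] at n1 n2 n3
    have n4 := (hPBG K σ σ' M c d S hc).2.1
    have hM := hc.pos
    apply mul_left_cancel₀ hM.ne'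
    linear_combination (-(σ (d : K))) * n1 + (σ (c : K) / 2) * n3 - (σ (c : K) / 2) * n1 -
      (σ (c : K) / 2) * n2 - (σ (c : K) / 2) * n4
  have k1 := key h
  have k0 := key h0
  have hq : ((val S (1, 0) : ℤ) : ℝ) ≠ 0 := by
    intro hz
    have n1 := h.nrm (1, 0)
    simp only [lv, Int.cast_one, Int.cast_zero, one_mul, zero_mul, add_zero] at n1
    rw [hz, mul_zero] at n1
    have ha := PB_ne h
    rcases mul_eq_zero.1 n1 with h1 | h1
    · apply ha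
      have := (map_eq_zero σ).1 h1
      exact_mod_cast this
    · apply ha
      have := (map_eq_zero σ').1 h1
      exact_mod_cast this
  have key2 : σ (a : K) * σ (b0 : K) = σ (a0 : K) * σ (b : K) := by
    apply mul_left_cancel₀ hq
    linear_combination (σ (a : K)) * k0 - (σ (a0 : K)) * k1
  have e : σ (algebraMap (𝓞 K) K (a * b0)) = σ (algebraMap (𝓞 K) K (a0 * b)) := by
    simpa only [map_mul] using key2
  exact FaithfulSMul.algebraMap_injective (𝓞 K) K (σ.injective e)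

/-- the ideal generated by the lattice of a line -/
theorem span_pair (hPRN : Pool.Agent.H95.CF.T_PRN) {I : (Ideal (𝓞 K))⁰} {α β : 𝓞 K} {Q : QF}
    {b : ℤ × ℤ → (Ideal (𝓞 K))⁰} {f : ℕ} {V W : ℤ × ℤ} (hVW : det V W = 1)
    (h : OBr σ σ' (I : Ideal (𝓞 K)) α β Q) (hb : VBr I α β Q b) (hU : Uv f Q V) :
    Ideal.span {lv K α β V, (f : 𝓞 K) * lv K α β W} = (I : Ideal (𝓞 K)) := by
  have hV0 : V ≠ 0 := by
    rintro rfl
    simp [det] at hVW
  have hmem : ∀ v : ℤ × ℤ, lv K α β v ∈ (I : Ideal (𝓞 K)) := fun v => (h.mem _).2 ⟨v, rfl⟩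
  apply le_antisymm
  · rw [Ideal.span_le]
    intro z hz
    rcases hz with rfl | hz
    · exact hmem V
    · rw [Set.mem_singleton_iff] at hz
      rw [hz]
      exact Ideal.mul_mem_left _ _ (hmem W)
  · have hpr : (b V : Ideal (𝓞 K)) ⊔ Ideal.span {(f : 𝓞 K)} = ⊤ := by
      have h1 : (b V : Ideal (𝓞 K)) ≠ ⊥ := nonZeroDivisors.coe_ne_zero (b V)
      have h2 := (hPRN K f (b V : Ideal (𝓞 K)) h1).2 (by
        have h3 := hb.nrm V hV0
        have h4 : IsCoprime ((nm (b V) : ℕ) : ℤ) (f : ℤ) := by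
          rw [h3]
          unfold Uv at hU
          rcases abs_choice (val Q V) with h5 | h5
          · rw [h5]
            exact hU
          · rw [h5]
            exact hU.neg_left
        exact Nat.isCoprime_iff_coprime.1 h4)
      exact h2.2
    have h1 : (I : Ideal (𝓞 K)) = (b V : Ideal (𝓞 K)) * I ⊔ Ideal.span {(f : 𝓞 K)} * I := by
      rw [← Ideal.sup_mul, hpr, Ideal.top_mul]
    rw [h1, ← hb.spn V hV0]
    refine sup_le ?_ ?_
    · rw [Ideal.span_le, Set.singleton_subset_iff]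
      exact Ideal.subset_span (Set.mem_insert _ _)
    · rw [Ideal.mul_le]
      intro r hr z hz
      obtain ⟨t, rfl⟩ := Ideal.mem_span_singleton.1 hr
      obtain ⟨v, rfl⟩ := (h.mem _).1 hz
      have e : (f : 𝓞 K) * t * ((v.1 : 𝓞 K) * α + (v.2 : 𝓞 K) * β) =
          (t * (f : 𝓞 K) * ((det v W : ℤ) : 𝓞 K)) * lv K α β V +
            (t * ((det V v : ℤ) : 𝓞 K)) * ((f : 𝓞 K) * lv K α β W) := by
        have h2 : ((det V W : ℤ) : 𝓞 K) = 1 := by rw [hVW]; simp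
        simp only [det, lv] at h2 ⊢
        push_cast at h2 ⊢
        linear_combination (-(f : 𝓞 K) * t * ((v.1 : 𝓞 K) * α + (v.2 : 𝓞 K) * β)) * h2
      rw [e]
      exact Ideal.add_mem _ (Ideal.mul_mem_left _ _ (Ideal.subset_span (Set.mem_insert _ _)))
        (Ideal.mul_mem_left _ _ (Ideal.subset_span (Set.mem_insert_of_mem _ rfl)))

/-- the coordinates with respect to an oriented basis are unique -/
theorem lv_inj {N : ℝ} {a b : 𝓞 K} {S : QF} (h : PB σ σ' N a b S) {v w : ℤ × ℤ}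
    (e : lv K a b v = lv K a b w) : v = w := by
  have e0 : ((v.1 - w.1 : ℤ) : 𝓞 K) * a + ((v.2 - w.2 : ℤ) : 𝓞 K) * b = 0 := by
    push_cast
    linear_combination e
  obtain ⟨p, hp⟩ : ∃ p : ℤ, p = v.1 - w.1 := ⟨_, rfl⟩
  obtain ⟨q, hq⟩ : ∃ q : ℤ, q = v.2 - w.2 := ⟨_, rfl⟩
  rw [← hp, ← hq] at e0
  have e1 : (p : ℝ) * σ (a : K) + (q : ℝ) * σ (b : K) = 0 := by
    have := congrArg (fun z : 𝓞 K => σ (z : K)) e0
    simpa only [map_add, map_mul, map_intCast, map_zero] using this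
  have e2 : (p : ℝ) * σ' (a : K) + (q : ℝ) * σ' (b : K) = 0 := by
    have := congrArg (fun z : 𝓞 K => σ' (z : K)) e0
    simpa only [map_add, map_mul, map_intCast, map_zero] using this
  have ho := h.ori.ne'
  have hp0 : (p : ℝ) = 0 := by
    apply mul_right_cancel₀ ho
    linear_combination (σ' (b : K)) * e1 - (σ (b : K)) * e2
  have hq0 : (q : ℝ) = 0 := by
    apply mul_right_cancel₀ ho
    linear_combination (σ (a : K)) * e2 - (σ' (a : K)) * e1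
  have hp1 : p = 0 := by exact_mod_cast hp0
  have hq1 : q = 0 := by exact_mod_cast hq0
  refine Prod.ext ?_ ?_
  · linarith
  · linarith

end

theorem pf_MULr (hUWN : T_UWN) (hTYR : T_TYR) (hPBT : T_PBT) (hPBG : T_PBG)
    (hFLF : Pool.Agent.H95.FC.T_FLF) (_hTRN : Pool.Agent.H95.FC.T_TRN)
    (hPRN : Pool.Agent.H95.CF.T_PRN) : T_MULr := by
  intro K _ _ D f σ σ' hRQ hf R S x
  obtain ⟨Z, hZ⟩ : ∃ Z : Set (ClassGroup (𝓞 K) × (ℤ × ℤ) × SL(2, ℤ)), Z = {p | p.2.1 ∈ R.T p.1 ∧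
      act (R.fo p.1 p.2.1) p.2.2 = S ∧ x ≤ ly R p.1 p.2.1 p.2.2 ∧
      ly R p.1 p.2.1 p.2.2 < x + R.P} := ⟨_, rfl⟩
  rw [← hZ]
  rcases Z.eq_empty_or_nonempty with h0 | ⟨p₀, hp₀⟩
  · rw [h0]
    simp
  -- the first and the second vector
  obtain ⟨av, hav⟩ : ∃ av : ClassGroup (𝓞 K) × (ℤ × ℤ) × SL(2, ℤ) → 𝓞 K, av = fun p =>
    lv K (R.v₁ p.1 p.2.1) (R.v₂ p.1 p.2.1) (p.2.2 0 0, p.2.2 1 0) := ⟨_, rfl⟩
  obtain ⟨bv, hbv⟩ : ∃ bv : ClassGroup (𝓞 K) × (ℤ × ℤ) × SL(2, ℤ) → 𝓞 K, bv = fun p =>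
    lv K (R.v₁ p.1 p.2.1) (R.v₂ p.1 p.2.1) (p.2.2 0 1, p.2.2 1 1) := ⟨_, rfl⟩
  have hPB0 : ∀ c, ∀ V ∈ R.T c, PB σ σ' (Ideal.absNorm (R.I c : Ideal (𝓞 K))) (R.v₁ c V)
      (R.v₂ c V) (R.fo c V) := by
    intro c V hV
    have hI0 : (R.I c : Ideal (𝓞 K)) ≠ ⊥ := nonZeroDivisors.coe_ne_zero (R.I c)
    have h1 := (hPBT K σ σ').1 (R.I c : Ideal (𝓞 K)) (R.α c) (R.β c) (R.Q c) hI0 (R.ob c)
    exact ((hPBT K σ σ').2.1 _ _ _ _ f V (R.W c V) h1 hf ((R.lt c).one V hV)).1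
  have hPB : ∀ p ∈ Z, PB σ σ' (Ideal.absNorm (R.I p.1 : Ideal (𝓞 K))) (av p) (bv p) S := by
    intro p hp
    rw [hZ] at hp
    have h3 := ((hPBT K σ σ').2.2.1 _ _ _ _ p.2.2 (hPB0 p.1 p.2.1 hp.1)).1
    rw [hp.2.1] at h3
    rw [hav, hbv]
    exact h3
  have hspan : ∀ p ∈ Z, Ideal.span {av p, bv p} = (R.I p.1 : Ideal (𝓞 K)) := by
    intro p hp
    rw [hZ] at hp
    have hVW := (R.lt p.1).one p.2.1 hp.1
    have s1 := span_pair hPRN hVW (R.ob p.1) (R.vb p.1) ((R.lt p.1).un p.2.1 hp.1)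
    rw [← Pool.Agent.H10.FC.span_act _ _ p.2.2] at s1
    rw [hav, hbv]
    exact s1
  have hu : ∀ p ∈ Z, ∃ u : (𝓞 K)ˣ, p.1 = p₀.1 ∧ av p₀ * (u : 𝓞 K) = av p ∧
      av p * bv p₀ = av p₀ * bv p := by
    intro p hp
    have key := PB_pair hPBG (hPB p hp) (hPB p₀ hp₀)
    have ha := PB_ne (hPB p hp)
    have ha0 := PB_ne (hPB p₀ hp₀)
    have hsp : Ideal.span {av p₀} * (R.I p.1 : Ideal (𝓞 K)) =
        Ideal.span {av p} * (R.I p₀.1 : Ideal (𝓞 K)) := by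
      rw [← hspan p hp, ← hspan p₀ hp₀, Pool.Agent.H10.FC.span_mul_pair,
        Pool.Agent.H10.FC.span_mul_pair, key, mul_comm (av p₀) (av p)]
    have hc : p.1 = p₀.1 := by
      rw [← R.cl p.1, ← R.cl p₀.1, ClassGroup.mk0_eq_mk0_iff]
      exact ⟨av p₀, av p, ha0, ha, hsp⟩
    rw [hc] at hsp
    have hI0 : (R.I p₀.1 : Ideal (𝓞 K)) ≠ 0 := nonZeroDivisors.coe_ne_zero (R.I p₀.1)
    have h1 : Ideal.span {av p₀} = Ideal.span {av p} := mul_right_cancel₀ hI0 hsp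
    rw [Ideal.span_singleton_eq_span_singleton] at h1
    obtain ⟨u, hu⟩ := h1
    exact ⟨u, hc, hu, key⟩
  choose! u hu using hu
  obtain ⟨-, -, hfin⟩ := hUWN K D f σ σ' hRQ R.η R.un
  obtain ⟨hfin, hcard⟩ := hfin (x - lg σ σ' (av p₀))
  have ha0 := PB_ne (hPB p₀ hp₀)
  have hmaps : ∀ p ∈ Z, u p ∈ {u : (𝓞 K)ˣ | x - lg σ σ' (av p₀) ≤ lg σ σ' (u : 𝓞 K) ∧
      lg σ σ' (u : 𝓞 K) < x - lg σ σ' (av p₀) + lg σ σ' (R.η : 𝓞 K)} := by
    intro p hp
    obtain ⟨-, h1, -⟩ := hu p hp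
    have h2 := ((hTYR K σ σ' 0 0).1 (av p₀) ((u p : (𝓞 K)ˣ) : 𝓞 K) ha0 (Units.ne_zero _)).1
    rw [h1] at h2
    rw [hZ] at hp
    have h3 : x ≤ lg σ σ' (av p) := by rw [hav]; exact hp.2.2.1
    have h4 : lg σ σ' (av p) < x + R.P := by rw [hav]; exact hp.2.2.2
    have h5 : R.P = lg σ σ' (R.η : 𝓞 K) := rfl
    rw [h5] at h4
    constructor
    · linarith
    · linarith
  have hinj : Set.InjOn u Z := by
    intro p hp q hq he
    obtain ⟨hc1, hp1, hp2⟩ := hu p hp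
    obtain ⟨hc2, hq1, hq2⟩ := hu q hq
    have hae : av p = av q := by rw [← hp1, ← hq1, he]
    have hbe : bv p = bv q := by
      apply mul_left_cancel₀ ha0
      rw [← hp2, ← hq2, hae]
    obtain ⟨c, V, g⟩ := p
    obtain ⟨c', V', g'⟩ := q
    have hcc : c = c' := hc1.trans hc2.symm
    subst hcc
    rw [hZ] at hp hq
    have hV : V ∈ R.T c := hp.1
    have hV' : V' ∈ R.T c := hq.1
    rw [hav] at hae
    rw [hbv] at hbe
    simp only at hae hbe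
    have hdet : ((g 0 0 : ℤ) : 𝓞 K) * (g 1 1 : ℤ) - ((g 0 1 : ℤ) : 𝓞 K) * (g 1 0 : ℤ) = 1 := by
      have := g.det_coe
      rw [Matrix.det_fin_two] at this
      exact_mod_cast congrArg (fun z : ℤ => (z : 𝓞 K)) this
    have hVV : V = V' := by
      have e1 : R.v₁ c V = lv K (R.v₁ c V') (R.v₂ c V')
          (g 1 1 * g' 0 0 - g 1 0 * g' 0 1, g 1 1 * g' 1 0 - g 1 0 * g' 1 1) := by
        simp only [lv] at hae hbe ⊢
        push_cast
        linear_combination ((g 1 1 : ℤ) : 𝓞 K) * hae - ((g 1 0 : ℤ) : 𝓞 K) * hbe -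
          (R.v₁ c V) * hdet
      have hI0 : (R.I c : Ideal (𝓞 K)) ≠ ⊥ := nonZeroDivisors.coe_ne_zero (R.I c)
      have h1 := (hPBT K σ σ').1 (R.I c : Ideal (𝓞 K)) (R.α c) (R.β c) (R.Q c) hI0 (R.ob c)
      have h2 := ((hPBT K σ σ').2.1 _ _ _ _ f V' (R.W c V') h1 hf ((R.lt c).one V' hV')).2
        (g 1 1 * g' 0 0 - g 1 0 * g' 0 1, g 1 1 * g' 1 0 - g 1 0 * g' 1 1)
      have h3 : lv K (R.α c) (R.β c) V = lv K (R.α c) (R.β c) (io f V' (R.W c V')
          (g 1 1 * g' 0 0 - g 1 0 * g' 0 1, g 1 1 * g' 1 0 - g 1 0 * g' 1 1)) := by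
        rw [← h2]
        exact e1
      have h4 := lv_inj h1 h3
      have h5 : (f : ℤ) ∣ det V' V :=
        ((hFLF f (R.Q c) V' (R.W c V') hf ((R.lt c).one V' hV')).2.2.2.2 V).2 ⟨_, h4.symm⟩
      exact ((R.lt c).uni V' hV' V hV h5).symm
    subst hVV
    have f1 := lv_inj (hPB0 c V hV) hae
    have f2 := lv_inj (hPB0 c V hV) hbe
    have f11 : g 0 0 = g' 0 0 := congrArg Prod.fst f1
    have f12 : g 1 0 = g' 1 0 := congrArg Prod.snd f1
    have f21 : g 0 1 = g' 0 1 := congrArg Prod.fst f2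
    have f22 : g 1 1 = g' 1 1 := congrArg Prod.snd f2
    have hg : g = g' := by
      ext i j
      fin_cases i <;> fin_cases j
      · exact f11
      · exact f21
      · exact f12
      · exact f22
    rw [hg]
  refine ⟨Set.Finite.of_injOn hmaps hinj hfin, ?_⟩
  have h1 := Set.ncard_le_ncard_of_injOn u hmaps hinj hfin
  rw [hcard] at h1
  exact h1

end Pool.Agent.H86.DF
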