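import Pool.Agent.H89.DF.TargetsK
import Pool.Agent.H34.FM.TM

/-!
# The twisted second moment over reduced points, with weights
-/

set_option autoImplicit false

open MeasureTheory Set Filter
open scoped Real Matrix MatrixGroups

namespace Pool.Agent.H86.DF

open Pool.Agent.H31.CN Pool.Agent.H89.FM Pool.Agent.H89.FC Pool.Agent.H89.DF

/-- translations -/
def tjj (j : ℤ) : SL(2, ℤ) := Pool.Agent.H34.FM.tj j

theorem act_tjj (Q : QF) (j : ℤ) : act Q (tjj j) = tq j Q := Pool.Agent.H34.FM.act_tj Q j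

theorem gd_tjj (j : ℤ) (x y : ℝ) : Pool.Agent.H89.DF.gd (tjj j) x y = 1 := by
  have h00 : (tjj j) 0 0 = 1 := rfl
  have h10 : (tjj j) 1 0 = 0 := rfl
  unfold Pool.Agent.H89.DF.gd
  rw [h00, h10]
  push_cast
  ring

theorem gx_tjj (j : ℤ) (x y : ℝ) : gx (tjj j) x y = x + j := by
  have h00 : (tjj j) 0 0 = 1 := rfl
  have h01 : (tjj j) 0 1 = j := rfl
  have h10 : (tjj j) 1 0 = 0 := rfl
  have h11 : (tjj j) 1 1 = 1 := rfl
  unfold gx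
  rw [gd_tjj, h00, h01, h10, h11]
  push_cast
  ring

theorem gy_tjj (j : ℤ) (x y : ℝ) : gy (tjj j) x y = y := by
  unfold gy
  rw [gd_tjj, div_one]

/-- the first coefficient of an anisotropic form -/
theorem anis_ne {p : ℕ} (hp : p.Prime) {Q : QF} (h : Anis p Q) : Q.1 ≠ 0 := by
  intro h0
  have h1 : (p : ℤ) ∣ val Q (1, 0) := by
    have e : val Q (1, 0) = 0 := by
      unfold val
      simp only
      rw [h0]
      ring
    rw [e]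
    exact dvd_zero _
  have h2 := (h (1, 0) h1).1
  simp only at h2
  have h3 : (p : ℤ) ≤ 1 := Int.le_of_dvd one_pos h2
  have h4 : (2 : ℤ) ≤ p := by exact_mod_cast hp.two_le
  omega

/-- the bounds of a form at a point of its geodesic -/
theorem geo_bd {Q : QF} {x y Y : ℝ} (ha : Q.1 ≠ 0) (hG : Geo Q x y) (hD : -(dsc Q : ℝ) ≤ Y ^ 2)
    (hY : 1 ≤ Y) (hy : 0 < y) :
    2 * |(Q.1 : ℝ)| * y ≤ Y ∧ |(Q.2.1 : ℝ) - 2 * Q.1 * x| ≤ Y ∧ 2 * y ≤ Y := by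
  have hY0 : 0 < Y := by linarith
  have e1 : -(dsc Q : ℝ) = ((Q.2.1 : ℝ) - 2 * Q.1 * x) ^ 2 + (2 * |(Q.1 : ℝ)| * y) ^ 2 := by
    unfold Geo at hG
    unfold dsc
    push_cast
    have e2 : (2 * |(Q.1 : ℝ)| * y) ^ 2 = 4 * (Q.1 : ℝ) ^ 2 * y ^ 2 := by
      rw [mul_pow, mul_pow, sq_abs]
      ring
    rw [e2]
    linear_combination (-4 * (Q.1 : ℝ)) * hG
  rw [e1] at hD
  have h1 : 2 * |(Q.1 : ℝ)| * y ≤ Y := by
    refine le_of_sq_le_sq ?_ hY0.le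
    have := sq_nonneg ((Q.2.1 : ℝ) - 2 * Q.1 * x)
    linarith
  have h2 : |(Q.2.1 : ℝ) - 2 * Q.1 * x| ≤ Y := by
    refine abs_le_of_sq_le_sq ?_ hY0.le
    have := sq_nonneg (2 * |(Q.1 : ℝ)| * y)
    linarith
  refine ⟨h1, h2, ?_⟩
  have h3 : (1 : ℝ) ≤ |(Q.1 : ℝ)| := by
    have : (1 : ℤ) ≤ |Q.1| := Int.one_le_abs ha
    exact_mod_cast this
  have h4 : 2 * y ≤ 2 * |(Q.1 : ℝ)| * y := by nlinarith
  linarith

/-- the conditions of the box -/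
theorem box_bd {Q : QF} {x y Y ρ : ℝ} (j : ℤ) (hG : Geo Q x y)
    (h1 : 2 * |(Q.1 : ℝ)| * y ≤ Y) (h2 : |(Q.2.1 : ℝ) - 2 * Q.1 * x| ≤ Y) (hY : 1 ≤ Y)
    (hρ : 1 ≤ ρ) (hy1 : ρ / 2 ≤ y) (hy2 : y ≤ ρ) (hx : |x + j| ≤ ρ) :
    ρ * |((tq j Q).1 : ℝ)| ≤ 5 * Y ∧ |((tq j Q).2.1 : ℝ)| ≤ 5 * Y ∧
      |((tq j Q).2.2 : ℝ)| ≤ 5 * Y * ρ := by
  have ha0 : 0 ≤ |(Q.1 : ℝ)| := abs_nonneg _
  have h3 : ρ * |(Q.1 : ℝ)| ≤ Y := by nlinarith
  have e1 : ((tq j Q).1 : ℝ) = (Q.1 : ℝ) := rfl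
  have e2 : ((tq j Q).2.1 : ℝ) = ((Q.2.1 : ℝ) - 2 * Q.1 * x) + 2 * Q.1 * (x + j) := by
    unfold tq
    push_cast
    ring
  have h4 : |((tq j Q).2.1 : ℝ)| ≤ 3 * Y := by
    rw [e2]
    refine (abs_add_le _ _).trans ?_
    have h5 : |2 * (Q.1 : ℝ) * (x + j)| ≤ 2 * Y := by
      rw [abs_mul, abs_mul, abs_of_pos (two_pos : (0 : ℝ) < 2)]
      have : |(Q.1 : ℝ)| * |x + j| ≤ |(Q.1 : ℝ)| * ρ := mul_le_mul_of_nonneg_left hx ha0
      linarith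
    linarith
  have e3 : ((tq j Q).2.2 : ℝ) = ((tq j Q).2.1 : ℝ) * (x + j) -
      (Q.1 : ℝ) * ((x + j) ^ 2 + y ^ 2) := by
    unfold Geo at hG
    unfold tq
    push_cast
    linear_combination hG
  refine ⟨by rw [e1]; linarith, by linarith, ?_⟩
  rw [e3]
  have h6 : |((tq j Q).2.1 : ℝ) * (x + j)| ≤ 3 * Y * ρ := by
    rw [abs_mul]
    exact mul_le_mul h4 hx (abs_nonneg _) (by linarith)
  have h7 : |(Q.1 : ℝ) * ((x + j) ^ 2 + y ^ 2)| ≤ 2 * Y * ρ := by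
    rw [abs_mul, abs_of_nonneg (a := (x + (j : ℝ)) ^ 2 + y ^ 2) (by positivity)]
    have h8 : (x + (j : ℝ)) ^ 2 ≤ ρ ^ 2 := by
      rw [← sq_abs]
      exact pow_le_pow_left₀ (abs_nonneg _) hx 2
    have h9 : y ^ 2 ≤ ρ ^ 2 := pow_le_pow_left₀ (by linarith) hy2 2
    calc |(Q.1 : ℝ)| * ((x + (j : ℝ)) ^ 2 + y ^ 2) ≤ |(Q.1 : ℝ)| * (2 * ρ ^ 2) :=
          mul_le_mul_of_nonneg_left (by linarith) ha0
      _ = 2 * (ρ * |(Q.1 : ℝ)|) * ρ := by ring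
      _ ≤ 2 * Y * ρ := by
          refine mul_le_mul_of_nonneg_right ?_ (by linarith)
          linarith
  calc |((tq j Q).2.1 : ℝ) * (x + j) - (Q.1 : ℝ) * ((x + j) ^ 2 + y ^ 2)|
      ≤ |((tq j Q).2.1 : ℝ) * (x + j)| + |(Q.1 : ℝ) * ((x + j) ^ 2 + y ^ 2)| := abs_sub _ _
    _ ≤ 5 * Y * ρ := by linarith

open Classical in
/-- the sum over the pairs against the sum over the forms -/
theorem fib_sum {Ω : Type} (S : Finset Ω) (Q : Ω → QF) (w b : Ω → ℝ) (B : ℝ)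
    (U : Finset (Ω × ℕ)) (hU : ∀ u ∈ U, u.1 ∈ S) (ha : ∀ i ∈ S, (Q i).1 ≠ 0)
    (hw : ∀ i ∈ S, 0 ≤ w i)
    (hB : ∀ R : QF, ∑ i ∈ S.filter (fun i => ∃ j : ℤ, tq j (Q i) = R), w i ≤ B)
    (g : QF → Ω × ℕ)
    (hg : ∀ R ∈ U.image (fun u => tq (u.2 : ℤ) (Q u.1)), ∀ v ∈ U, tq (v.2 : ℤ) (Q v.1) = R →
      b v.1 ≤ b (g R).1)
    (hb : ∀ i, 0 ≤ b i) :
    ∑ u ∈ U, w u.1 * b u.1 ≤
      B * ∑ R ∈ U.image (fun u => tq (u.2 : ℤ) (Q u.1)), b (g R).1 := by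
  have hmaps : ∀ u ∈ U, tq (u.2 : ℤ) (Q u.1) ∈ U.image (fun u => tq (u.2 : ℤ) (Q u.1)) :=
    fun u hu => Finset.mem_image_of_mem _ hu
  rw [← Finset.sum_fiberwise_of_maps_to hmaps, Finset.mul_sum]
  refine Finset.sum_le_sum fun R hR => ?_
  have h1 : ∑ u ∈ U.filter (fun u => tq (u.2 : ℤ) (Q u.1) = R), w u.1 * b u.1 ≤
      ∑ u ∈ U.filter (fun u => tq (u.2 : ℤ) (Q u.1) = R), w u.1 * b (g R).1 := by
    refine Finset.sum_le_sum fun u hu => ?_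
    rw [Finset.mem_filter] at hu
    exact mul_le_mul_of_nonneg_left (hg R hR u hu.1 hu.2) (hw u.1 (hU u hu.1))
  refine h1.trans ?_
  rw [← Finset.sum_mul]
  refine mul_le_mul_of_nonneg_right ?_ (hb _)
  have hinj : Set.InjOn (fun u : Ω × ℕ => u.1)
      (U.filter (fun u => tq (u.2 : ℤ) (Q u.1) = R) : Finset (Ω × ℕ)) := by
    intro u hu v hv he
    rw [Finset.mem_coe, Finset.mem_filter] at hu hv
    have he' : u.1 = v.1 := he
    have h2 : tq (u.2 : ℤ) (Q u.1) = tq (v.2 : ℤ) (Q v.1) := hu.2.trans hv.2.symm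
    rw [he'] at h2
    have h3 := (Prod.mk.inj (Prod.mk.inj h2).2).1
    have h4 : 2 * (Q v.1).1 * (u.2 : ℤ) = 2 * (Q v.1).1 * (v.2 : ℤ) := by linarith
    have h5 : 2 * (Q v.1).1 ≠ 0 := mul_ne_zero two_ne_zero (ha v.1 (hU v hv.1))
    have h6 : (u.2 : ℤ) = (v.2 : ℤ) := mul_left_cancel₀ h5 h4
    exact Prod.ext he' (by exact_mod_cast h6)
  have h7 : ∑ u ∈ U.filter (fun u => tq (u.2 : ℤ) (Q u.1) = R), w u.1 =
      ∑ i ∈ (U.filter (fun u => tq (u.2 : ℤ) (Q u.1) = R)).image (fun u => u.1), w i :=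
    (Finset.sum_image hinj).symm
  rw [h7]
  refine le_trans ?_ (hB R)
  refine Finset.sum_le_sum_of_subset_of_nonneg ?_ ?_
  · intro i hi
    rw [Finset.mem_image] at hi
    obtain ⟨u, hu, rfl⟩ := hi
    rw [Finset.mem_filter] at hu
    rw [Finset.mem_filter]
    exact ⟨hU u hu.1, (u.2 : ℤ), hu.2⟩
  · intro i hi _
    rw [Finset.mem_filter] at hi
    exact hw i hi.1

open Classical in
theorem pf_TM1r (hBOX : T_BOXr) (hBIV : T_BIVr) : T_TM1r := by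
  intro ε hε
  obtain ⟨κ, hκ, hκ8, δ, hδ, hδ8, C, k, hC, hBx⟩ := hBOX (ε / 2) (by linarith)
  refine ⟨κ, hκ, hκ8, δ, hδ, C * (1 + 4 / ε), k, by positivity, ?_⟩
  intro Ω S Q x y w m s Y B p N α hs hY hN hNY hα hp hB0 hS hW
  have hY0 : 0 < Y := by linarith
  have ha : ∀ i ∈ S, (Q i).1 ≠ 0 := fun i hi => anis_ne hp (hS i hi).1
  have hy0 : ∀ i ∈ S, 0 < y i := fun i hi => by
    have := (hS i hi).2.2.2.1
    linarith
  have hgb : ∀ i ∈ S, 2 * |((Q i).1 : ℝ)| * y i ≤ Y ∧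
      |((Q i).2.1 : ℝ) - 2 * (Q i).1 * x i| ≤ Y ∧ 2 * y i ≤ Y := fun i hi =>
    geo_bd (ha i hi) (hS i hi).2.2.2.2.1 (hS i hi).2.1 hY (hy0 i hi)
  -- the dyadic height
  have hex : ∀ i, ∃ e : ℕ, i ∈ S → y i ≤ 2 ^ e ∧ (2 : ℝ) ^ e / 2 ≤ y i := by
    intro i
    by_cases hi : i ∈ S
    · have h1 : ∃ e : ℕ, y i ≤ 2 ^ e := by
        obtain ⟨e, he⟩ := pow_unbounded_of_one_lt (y i) (one_lt_two : (1 : ℝ) < 2)
        exact ⟨e, he.le⟩
      refine ⟨Nat.find h1, fun _ => ⟨Nat.find_spec h1, ?_⟩⟩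
      rcases Nat.eq_zero_or_pos (Nat.find h1) with h0 | h0
      · rw [h0]
        have := (hS i hi).2.2.2.1
        norm_num
        linarith
      · have h2 := Nat.find_min h1 (Nat.sub_lt h0 one_pos)
        rw [not_le] at h2
        have h3 : (2 : ℝ) ^ (Nat.find h1) = 2 ^ (Nat.find h1 - 1) * 2 := by
          rw [← pow_succ, Nat.sub_add_cancel h0]
        rw [h3]
        linarith
    · exact ⟨0, fun h => absurd h hi⟩
  choose e he using hex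
  have heY : ∀ i ∈ S, (2 : ℝ) ^ (e i) ≤ Y := by
    intro i hi
    have h1 := (he i hi).2
    have h2 := (hgb i hi).2.2
    linarith
  have helog : ∀ i ∈ S, e i ∈ Finset.range (Nat.log 2 ⌊Y⌋₊ + 1) := by
    intro i hi
    rw [Finset.mem_range]
    refine Nat.lt_succ_of_le ?_
    have h1 := heY i hi
    have h2 : 2 ^ (e i) ≤ ⌊Y⌋₊ := Nat.le_floor (by push_cast; exact h1)
    have h3 : Nat.log 2 (2 ^ (e i)) ≤ Nat.log 2 ⌊Y⌋₊ := Nat.log_mono_right h2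
    rwa [Nat.log_pow (by norm_num)] at h3
  obtain ⟨b, hb⟩ : ∃ b : Ω → ℝ, b = fun i => ‖Bz m s α N (Q i) (x i) (y i)‖ ^ 2 := ⟨_, rfl⟩
  have hbn : ∀ i, 0 ≤ b i := fun i => by rw [hb]; positivity
  obtain ⟨D, hD⟩ : ∃ D : ℝ, D = C * (p : ℝ) ^ 3 * (1 + |s.im| + |(m : ℝ)|) ^ k *
      cG m.natAbs s.im ^ 2 * Y ^ (3 + ε / 2) * N := ⟨_, rfl⟩
  have hD0 : 0 ≤ D := by
    rw [hD]
    positivity
  have hfib : ∀ n : ℕ, ∑ i ∈ S.filter (fun i => e i = n), w i * b i ≤ B * D := by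
    intro n
    rcases (S.filter (fun i => e i = n)).eq_empty_or_nonempty with h0 | h0
    · rw [h0, Finset.sum_empty]
      positivity
    obtain ⟨i₀, hi₀⟩ := h0
    rw [Finset.mem_filter] at hi₀
    have hρ1 : (1 : ℝ) ≤ 2 ^ n := one_le_pow₀ (by norm_num)
    have hρY : (2 : ℝ) ^ n ≤ Y := by
      have h1 := heY i₀ hi₀.1
      rwa [hi₀.2] at h1
    obtain ⟨U, hU⟩ : ∃ U : Finset (Ω × ℕ),
      U = (S.filter (fun i => e i = n)) ×ˢ Finset.range (2 ^ n) := ⟨_, rfl⟩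
    have hUm : ∀ u ∈ U, u.1 ∈ S ∧ e u.1 = n ∧ u.2 < 2 ^ n := by
      intro u hu
      rw [hU, Finset.mem_product, Finset.mem_filter, Finset.mem_range] at hu
      exact ⟨hu.1.1, hu.1.2, hu.2⟩
    have hch : ∀ R : QF, ∃ u : Ω × ℕ, R ∈ U.image (fun u => tq (u.2 : ℤ) (Q u.1)) →
        u ∈ U ∧ tq (u.2 : ℤ) (Q u.1) = R ∧
        ∀ v ∈ U, tq (v.2 : ℤ) (Q v.1) = R → b v.1 ≤ b u.1 := by
      intro R
      by_cases hR : R ∈ U.image (fun u => tq (u.2 : ℤ) (Q u.1))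
      · rw [Finset.mem_image] at hR
        obtain ⟨u, hu, huR⟩ := hR
        obtain ⟨v, hv, hvm⟩ := Finset.exists_max_image
          (U.filter (fun u => tq (u.2 : ℤ) (Q u.1) = R)) (fun u => b u.1)
          ⟨u, Finset.mem_filter.2 ⟨hu, huR⟩⟩
        rw [Finset.mem_filter] at hv
        exact ⟨v, fun _ => ⟨hv.1, hv.2, fun v' hv' hv'' =>
          hvm v' (Finset.mem_filter.2 ⟨hv', hv''⟩)⟩⟩
      · exact ⟨(i₀, 0), fun h => absurd h hR⟩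
    choose g hg using hch
    have hfs := fib_sum S Q w b B U (fun u hu => (hUm u hu).1) ha
      (fun i hi => (hS i hi).2.2.2.2.2) hW g (fun R hR => (hg R hR).2.2) hbn
    have hsum : ∑ u ∈ U, w u.1 * b u.1 = 2 ^ n * ∑ i ∈ S.filter (fun i => e i = n), w i * b i := by
      rw [hU, Finset.sum_product, Finset.mul_sum]
      refine Finset.sum_congr rfl fun i _ => ?_
      simp only
      rw [Finset.sum_const, Finset.card_range, nsmul_eq_mul]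
      push_cast
      ring
    have hbox := hBx m s Y (2 ^ n) p N α (U.image (fun u => tq (u.2 : ℤ) (Q u.1)))
      (fun R => x (g R).1 + ((g R).2 : ℤ)) (fun R => y (g R).1)
      hs hY hρ1 hρY hN hNY hα hp (by
        intro R hR
        obtain ⟨h1, h2, -⟩ := hg R hR
        obtain ⟨hi, hei, hj⟩ := hUm _ h1
        obtain ⟨u, hu⟩ : ∃ u, u = g R := ⟨_, rfl⟩
        rw [← hu] at h1 h2 hi hei hj ⊢
        have h3 := hS u.1 hi
        have h4 := he u.1 hi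
        rw [hei] at h4
        have h5 := hgb u.1 hi
        have hx : |x u.1 + ((u.2 : ℤ) : ℝ)| ≤ 2 ^ n := by
          have h6 : ((u.2 : ℕ) : ℝ) + 1 ≤ 2 ^ n := by exact_mod_cast hj
          have h7 : (0 : ℝ) ≤ ((u.2 : ℕ) : ℝ) := Nat.cast_nonneg _
          push_cast
          refine (abs_add_le _ _).trans ?_
          rw [abs_of_nonneg h7]
          have := h3.2.2.1
          linarith
        have hbb := box_bd (u.2 : ℤ) h3.2.2.2.2.1 h5.1 h5.2.1 hY hρ1 h4.2 h4.1 hx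
        rw [h2] at hbb
        have hAn : Anis p R := by
          rw [← h2, ← act_tjj]
          exact (hBIV m s α N p (Q u.1) (tjj (u.2 : ℤ)) (x u.1) (y u.1) (hy0 u.1 hi)).2.2.2.1 h3.1
        refine ⟨hAn, hbb.1, hbb.2.1, hbb.2.2, ?_, h4.2, h4.1⟩
        linarith)
    have heq : ∑ R ∈ U.image (fun u => tq (u.2 : ℤ) (Q u.1)),
        ‖Bz m s α N R (x (g R).1 + ((g R).2 : ℤ)) (y (g R).1)‖ ^ 2 =
        ∑ R ∈ U.image (fun u => tq (u.2 : ℤ) (Q u.1)), b (g R).1 := by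
      refine Finset.sum_congr rfl fun R hR => ?_
      obtain ⟨h1, h2, -⟩ := hg R hR
      obtain ⟨hi, -, -⟩ := hUm _ h1
      have h3 := (hBIV m s α N p (Q (g R).1) (tjj ((g R).2 : ℤ)) (x (g R).1) (y (g R).1)
        (hy0 _ hi)).2.2.2.2.2.2
      rw [gx_tjj, gy_tjj, act_tjj, h2] at h3
      rw [h3, hb]
    rw [heq] at hbox
    have h8 : (2 : ℝ) ^ n * ∑ i ∈ S.filter (fun i => e i = n), w i * b i ≤ 2 ^ n * (B * D) := by
      rw [← hsum]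
      refine hfs.trans ?_
      refine (mul_le_mul_of_nonneg_left hbox hB0).trans (le_of_eq ?_)
      rw [hD]
      ring
    exact le_of_mul_le_mul_left h8 (by positivity)
  have hgoal : ∑ i ∈ S, w i * b i ≤ B * (C * (1 + 4 / ε)) * (p : ℝ) ^ 3 *
      (1 + |s.im| + |(m : ℝ)|) ^ k * cG m.natAbs s.im ^ 2 * Y ^ (3 + ε) * N := by
    rw [← Finset.sum_fiberwise_of_maps_to helog]
    have hY3 : Y ^ (3 + ε) = Y ^ (ε / 2) * Y ^ (3 + ε / 2) := by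
      rw [← Real.rpow_add hY0]
      congr 1
      ring
    calc ∑ n ∈ Finset.range (Nat.log 2 ⌊Y⌋₊ + 1), ∑ i ∈ S.filter (fun i => e i = n), w i * b i
        ≤ ∑ _n ∈ Finset.range (Nat.log 2 ⌊Y⌋₊ + 1), B * D := Finset.sum_le_sum fun n _ => hfib n
      _ = ((Nat.log 2 ⌊Y⌋₊ + 1 : ℕ) : ℝ) * (B * D) := by
          rw [Finset.sum_const, Finset.card_range, nsmul_eq_mul]
      _ ≤ (1 + 4 / ε) * Y ^ (ε / 2) * (B * D) :=
          mul_le_mul_of_nonneg_right (Pool.Agent.H34.FM.tm_log ε Y hε hY) (mul_nonneg hB0 hD0)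
      _ = B * (C * (1 + 4 / ε)) * (p : ℝ) ^ 3 *
          (1 + |s.im| + |(m : ℝ)|) ^ k * cG m.natAbs s.im ^ 2 * Y ^ (3 + ε) * N := by
          rw [hY3, hD]
          ring
  rw [hb] at hgoal
  exact hgoal

end Pool.Agent.H86.DF
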